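import Mathlib

namespace Pool.Agent.Results.MP_a0fa86_nt.SpanTwo

open Real

/-- An integer vector `z = (x, y)` of `ℤ⁴`, with `x, y ∈ ℤ²`. -/
abbrev IntVec : Type := (Fin 2 → ℤ) × (Fin 2 → ℤ)

/-- The vector `Θ x - y` of `ℝ²`. -/
noncomputable def resid (Θ : Matrix (Fin 2) (Fin 2) ℝ) (x y : Fin 2 → ℤ) : Fin 2 → ℝ :=
  Θ.mulVec (fun i => (x i : ℝ)) - fun i => (y i : ℝ)

/-- Condition (G): `Θ x ∉ ℤ²` for all nonzero `x ∈ ℤ²`. -/
def CondG (Θ : Matrix (Fin 2) (Fin 2) ℝ) : Prop :=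
  ∀ x : Fin 2 → ℤ, x ≠ 0 → ∀ y : Fin 2 → ℤ, Θ.mulVec (fun i => (x i : ℝ)) ≠ fun i => (y i : ℝ)

/-- `z = (x, y)` is a best approximation vector of `Θ`: `x ≠ 0`, and the only integer points
`(x', y')` with `|x'| ≤ |x|` and `|Θ x' - y'| ≤ |Θ x - y|` (sup norms) are `0` and `± z`. -/
def IsBest (Θ : Matrix (Fin 2) (Fin 2) ℝ) (z : IntVec) : Prop :=
  z.1 ≠ 0 ∧ ∀ z' : IntVec, ‖z'.1‖ ≤ ‖z.1‖ → ‖resid Θ z'.1 z'.2‖ ≤ ‖resid Θ z.1 z.2‖ →
    z' = 0 ∨ z' = z ∨ z' = -z

/-- `z` lists the best approximation vectors of `Θ`, one from each pair `± z`, in the order of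
increasing sup norm of the `x`-part. -/
structure Lists (Θ : Matrix (Fin 2) (Fin 2) ℝ) (z : ℕ → IntVec) : Prop where
  best : ∀ ν, IsBest Θ (z ν)
  mono : StrictMono fun ν => ‖(z ν).1‖
  all : ∀ w, IsBest Θ w → ∃ ν, w = z ν ∨ w = -z ν

/-- `d(ν₀)`: the dimension of the real span of the vectors `z ν` with `ν ≥ ν₀` in `ℝ⁴`. -/
noncomputable def tailDim (z : ℕ → IntVec) (ν₀ : ℕ) : ℕ :=
  Module.finrank ℝ (Submodule.span ℝ {v : (Fin 2 → ℝ) × (Fin 2 → ℝ) |
    ∃ ν, ν₀ ≤ ν ∧ v = (fun i => ((z ν).1 i : ℝ), fun i => ((z ν).2 i : ℝ))})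

/-- The number `(1 - √5)/2`. -/
noncomputable def psi : ℝ := (1 - √5) / 2

/-- The number `(1 + √5)/2`. -/
noncomputable def phi : ℝ := (1 + √5) / 2

/-- The matrix `(1/4) (1, ψ)ᵀ (ψ, 1)`, where `ψ = (1 - √5)/2`. -/
noncomputable def T0 : Matrix (Fin 2) (Fin 2) ℝ :=
  !![psi / 4, 1 / 4; psi ^ 2 / 4, psi / 4]

lemma psi_irrational : Irrational psi := Real.goldenConj_irrational

lemma phi_add_psi : phi + psi = 1 := by
  unfold phi psi
  ring

lemma psi_mul_phi : psi * phi = -1 := by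
  unfold phi psi
  have h : √5 * √5 = 5 := Real.mul_self_sqrt (by norm_num)
  linear_combination (-1 / 4 : ℝ) * h

lemma phi_pos : 0 < phi := by
  unfold phi
  positivity

lemma T0_det : T0.det = 0 := by
  simp [T0, Matrix.det_fin_two]
  ring

/-- the linear form `t = (ψ x₀ + x₁)/4` -/
noncomputable def tt (x : Fin 2 → ℤ) : ℝ := (psi * x 0 + x 1) / 4

lemma T0_mulVec (x : Fin 2 → ℤ) :
    T0.mulVec (fun i => (x i : ℝ)) = ![tt x, psi * tt x] := by
  ext i
  fin_cases i
  · simp [T0, tt, Matrix.mulVec, dotProduct, Fin.sum_univ_two]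
    ring
  · simp [T0, tt, Matrix.mulVec, dotProduct, Fin.sum_univ_two]
    ring

/-- integer shift of the second component -/
def shift (R : Matrix (Fin 2) (Fin 2) ℤ) (x : Fin 2 → ℤ) : Fin 2 → ℤ := R.mulVec x

lemma shift_cast (R : Matrix (Fin 2) (Fin 2) ℤ) (x : Fin 2 → ℤ) :
    (R.map (Int.cast : ℤ → ℝ)).mulVec (fun i => (x i : ℝ)) = fun i => ((R.mulVec x i : ℤ) : ℝ) := by
  ext i
  simp [Matrix.mulVec, dotProduct, Fin.sum_univ_two]

lemma resid_shift (R : Matrix (Fin 2) (Fin 2) ℤ) (x y : Fin 2 → ℤ) :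
    resid (T0 + R.map (Int.cast : ℤ → ℝ)) x y = resid T0 x (y - R.mulVec x) := by
  unfold resid
  rw [Matrix.add_mulVec, shift_cast]
  ext i
  simp only [Pi.sub_apply, Pi.add_apply, Int.cast_sub]
  ring

lemma resid_T0 (x y : Fin 2 → ℤ) :
    resid T0 x y = ![tt x - y 0, psi * tt x - y 1] := by
  unfold resid
  rw [T0_mulVec]
  ext i
  fin_cases i <;> simp

lemma norm_two (v : Fin 2 → ℝ) : ‖v‖ = max |v 0| |v 1| := by
  apply le_antisymm
  · rw [pi_norm_le_iff_of_nonneg (le_max_of_le_left (abs_nonneg _))]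
    intro i
    fin_cases i
    · simp
    · simp
  · apply max_le
    · exact norm_le_pi_norm v 0
    · exact norm_le_pi_norm v 1

lemma norm_two_int (v : Fin 2 → ℤ) : ‖v‖ = max |(v 0 : ℝ)| |(v 1 : ℝ)| := by
  apply le_antisymm
  · rw [pi_norm_le_iff_of_nonneg (le_max_of_le_left (abs_nonneg _))]
    intro i
    fin_cases i
    · simp [Int.norm_eq_abs]
    · simp [Int.norm_eq_abs]
  · apply max_le
    · exact norm_le_pi_norm v 0
    · exact norm_le_pi_norm v 1

/-- norm as natural number -/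
def nn (v : Fin 2 → ℤ) : ℕ := max (v 0).natAbs (v 1).natAbs

lemma norm_eq_nn (v : Fin 2 → ℤ) : ‖v‖ = (nn v : ℝ) := by
  rw [norm_two_int, nn]
  push_cast [Nat.cast_natAbs]
  rfl

lemma psi_bounds : -(0.6181 : ℝ) < psi ∧ psi < -0.618 := by
  have h5 : (2.236 : ℝ) < √5 := by
    rw [Real.lt_sqrt (by norm_num)]
    norm_num
  have h5' : √5 < (2.2362 : ℝ) := by
    rw [Real.sqrt_lt' (by norm_num)]
    norm_num
  unfold psi
  constructor <;> linarith

lemma form_ne (p q : ℤ) (h : p ≠ 0 ∨ q ≠ 0) : psi * p + q ≠ 0 := by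
  intro h0
  by_cases hp : p = 0
  · subst hp
    simp at h0
    rcases h with h | h
    · exact h rfl
    · exact h h0
  · have : Irrational (psi * p + q) := by
      exact (psi_irrational.mul_intCast hp).add_intCast q
    rw [h0] at this
    exact this ⟨0, by simp⟩

/-- the quadratic form lower bound -/
lemma quad_lower (p q : ℤ) (h : p ≠ 0 ∨ q ≠ 0) :
    1 ≤ |psi * p - q| * |phi * p - q| := by
  rw [← abs_mul]
  have e : (psi * p - q) * (phi * p - q) = ((-p ^ 2 - p * q + q ^ 2 : ℤ) : ℝ) := by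
    have h1 : psi * phi = -1 := psi_mul_phi
    have h2 : phi + psi = 1 := phi_add_psi
    push_cast
    have : (psi * p - q) * (phi * p - q)
      = (psi * phi) * p ^ 2 - (phi + psi) * p * q + q ^ 2 := by ring
    rw [this, h1, h2]
    ring
  have ne : (-p ^ 2 - p * q + q ^ 2 : ℤ) ≠ 0 := by
    intro h0
    rw [h0] at e
    simp only [Int.cast_zero, mul_eq_zero] at e
    rcases e with e | e
    · have := form_ne p (-q) (by rcases h with h | h; exact Or.inl h; exact Or.inr (by simpa using h))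
      apply this
      push_cast
      linarith
    · have h2 : phi + psi = 1 := phi_add_psi
      have h3 : psi * (p : ℝ) + ((q - p : ℤ) : ℝ) = 0 := by
        push_cast
        have : psi = 1 - phi := by linarith
        rw [this]
        linarith
      refine form_ne p (q - p) ?_ h3
      by_cases hp : p = 0
      · right
        subst hp
        rcases h with h | h
        · exact absurd rfl h
        · simpa using h
      · exact Or.inl hp
  rw [e, ← Int.cast_abs]
  have : (1 : ℤ) ≤ |-p ^ 2 - p * q + q ^ 2| := Int.one_le_abs ne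
  exact_mod_cast this

lemma tt_bound (x : Fin 2 → ℤ) : |tt x| ≤ (0.4046 : ℝ) * ‖x‖ := by
  have hb := psi_bounds
  have h0 : |(x 0 : ℝ)| ≤ ‖x‖ := by rw [norm_two_int]; exact le_max_left _ _
  have h1 : |(x 1 : ℝ)| ≤ ‖x‖ := by rw [norm_two_int]; exact le_max_right _ _
  have hp : |psi| ≤ 0.6181 := by rw [abs_le]; constructor <;> linarith
  have : |tt x| ≤ (|psi| * |(x 0 : ℝ)| + |(x 1 : ℝ)|) / 4 := by
    unfold tt
    rw [abs_div, abs_of_pos (by norm_num : (0 : ℝ) < 4)]
    have := abs_add_le (psi * (x 0 : ℝ)) (x 1 : ℝ)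
    rw [abs_mul] at this
    linarith
  have h2 : |psi| * |(x 0 : ℝ)| ≤ 0.6181 * ‖x‖ :=
    mul_le_mul hp h0 (abs_nonneg _) (by norm_num)
  have : 0 ≤ ‖x‖ := norm_nonneg _
  linarith

/-- points with `y ≠ 0` have a large residual -/
lemma resid_large (x y : Fin 2 → ℤ) (N : ℕ) (hN : 0 < N) (hx : ‖x‖ ≤ N) (hy : y ≠ 0) :
    1 / (4 * (N : ℝ)) < ‖resid T0 x y‖ := by
  by_contra hcon
  push Not at hcon
  rw [resid_T0, norm_two] at hcon
  simp only [Matrix.cons_val_zero, Matrix.cons_val_one] at hcon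
  have hN' : (1 : ℝ) ≤ N := by exact_mod_cast hN
  have hb := psi_bounds
  set δ : ℝ := 1 / (4 * (N : ℝ)) with hδ
  have h1 : |tt x - y 0| ≤ δ := le_trans (le_max_left _ _) hcon
  have h2 : |psi * tt x - y 1| ≤ δ := le_trans (le_max_right _ _) hcon
  have hδ1 : δ ≤ 1 / 4 := by
    rw [hδ]
    apply one_div_le_one_div_of_le (by norm_num)
    linarith
  have hδ0 : 0 < δ := by positivity
  have ht : |tt x| ≤ 0.4046 * N := by
    have := tt_bound x
    have : (0.4046 : ℝ) * ‖x‖ ≤ 0.4046 * N := by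
      apply mul_le_mul_of_nonneg_left hx (by norm_num)
    linarith
  have hδN : δ * N = 1 / 4 := by
    rw [hδ]
    field_simp
  -- bounds on y
  rw [abs_le] at h1 h2 ht
  have hy0 : |(y 0 : ℝ)| ≤ 0.4046 * N + 1 / 4 := by rw [abs_le]; constructor <;> linarith
  have hψt : |psi * tt x| ≤ 0.6181 * (0.4046 * N) := by
    rw [abs_mul]
    apply mul_le_mul
    · rw [abs_le]; constructor <;> linarith
    · rw [abs_le]; exact ht
    · exact abs_nonneg _
    · norm_num
  rw [abs_le] at hψt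
  have hy1 : |(y 1 : ℝ)| ≤ 0.6181 * (0.4046 * N) + 1 / 4 := by
    rw [abs_le]; constructor <;> linarith [hψt.1, hψt.2]
  have hd : |psi * y 0 - y 1| ≤ 1.6181 * δ := by
    have e : psi * (y 0 : ℝ) - y 1
        = (psi * tt x - y 1) - psi * (tt x - y 0) := by ring
    have h3 : |psi * (tt x - y 0)| ≤ 0.6181 * δ := by
      rw [abs_mul]
      apply mul_le_mul
      · rw [abs_le]; constructor <;> linarith
      · rw [abs_le]; exact h1
      · exact abs_nonneg _
      · norm_num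
    rw [abs_le] at h3
    rw [e, abs_le]
    constructor <;> linarith [h3.1, h3.2, h2.1, h2.2]
  have hphi : phi ≤ 1.6181 := by
    have := phi_add_psi
    linarith
  have hphi0 : 0 < phi := phi_pos
  have hc : |phi * y 0 - y 1| ≤ 1.6181 * (0.4046 * N + 1 / 4) + (0.6181 * (0.4046 * N) + 1 / 4) := by
    have h4 : |phi * (y 0 : ℝ)| ≤ 1.6181 * (0.4046 * N + 1 / 4) := by
      rw [abs_mul, abs_of_pos hphi0]
      apply mul_le_mul hphi hy0 (abs_nonneg _) (by norm_num)
    have := abs_sub (phi * (y 0 : ℝ)) (y 1 : ℝ)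
    linarith
  have hne : y 0 ≠ 0 ∨ y 1 ≠ 0 := by
    by_contra hh
    push Not at hh
    apply hy
    ext i
    fin_cases i
    · simpa using hh.1
    · simpa using hh.2
  have hq := quad_lower (y 0) (y 1) hne
  have : |psi * (y 0 : ℝ) - y 1| * |phi * (y 0 : ℝ) - y 1|
      ≤ (1.6181 * δ) * (1.6181 * (0.4046 * N + 1 / 4) + (0.6181 * (0.4046 * N) + 1 / 4)) := by
    apply mul_le_mul hd hc (abs_nonneg _) (by positivity)
  nlinarith [this, hq, hδN, hδ1, hδ0, hN']

lemma resid_zero_norm (x : Fin 2 → ℤ) : ‖resid T0 x 0‖ = |tt x| := by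
  rw [resid_T0, norm_two]
  have hb := psi_bounds
  simp only [Matrix.cons_val_zero, Matrix.cons_val_one, Pi.zero_apply, Int.cast_zero, sub_zero]
  apply max_eq_left
  rw [abs_mul]
  have hp : |psi| ≤ 1 := by rw [abs_le]; constructor <;> linarith
  exact mul_le_of_le_one_left (abs_nonneg _) hp

/-- Dirichlet: a good point with `y = 0`. -/
lemma exists_small (N : ℕ) (hN : 0 < N) :
    ∃ x : Fin 2 → ℤ, x ≠ 0 ∧ ‖x‖ ≤ N ∧ |tt x| ≤ 1 / (4 * ((N : ℝ) + 1)) := by
  obtain ⟨j, k, hk0, hkN, hjk⟩ := Real.exists_int_int_abs_mul_sub_le psi hN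
  have hb := psi_bounds
  refine ⟨![k, -j], ?_, ?_, ?_⟩
  · intro h
    have := congrFun h 0
    simp at this
    omega
  · have hN' : (1 : ℝ) ≤ N := by exact_mod_cast hN
    have hk1 : (1 : ℝ) ≤ k := by exact_mod_cast hk0
    have hkN' : (k : ℝ) ≤ N := by exact_mod_cast hkN
    have h1 : 1 / ((N : ℝ) + 1) ≤ 1 / 2 := by
      apply one_div_le_one_div_of_le (by norm_num)
      linarith
    rw [abs_le] at hjk
    have hj : |(j : ℝ)| < k + 1 := by
      have h3 : (k : ℝ) * psi ≤ 0 := by nlinarith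
      have h4 : -(0.6181 : ℝ) * k ≤ (k : ℝ) * psi := by nlinarith
      rw [abs_lt]
      constructor <;> nlinarith
    have hj' : |j| ≤ k := by
      have : |j| < k + 1 := by exact_mod_cast hj
      omega
    rw [norm_two_int]
    simp only [Matrix.cons_val_zero, Matrix.cons_val_one, Int.cast_neg, abs_neg]
    apply max_le
    · rw [abs_of_pos (by linarith)]; exact hkN'
    · have : |(j : ℝ)| ≤ k := by exact_mod_cast hj'
      linarith
  · have : tt ![k, -j] = (k * psi - j) / 4 := by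
      simp [tt]
      ring
    rw [this, abs_div, abs_of_pos (by norm_num : (0 : ℝ) < 4)]
    have hN' : (1 : ℝ) ≤ N := by exact_mod_cast hN
    calc |(k : ℝ) * psi - j| / 4 ≤ (1 / ((N : ℝ) + 1)) / 4 := by
          apply div_le_div_of_nonneg_right hjk (by norm_num)
      _ = 1 / (4 * ((N : ℝ) + 1)) := by field_simp

lemma tt_inj {x x' : Fin 2 → ℤ} (h : |tt x| = |tt x'|) : x' = x ∨ x' = -x := by
  have key : ∀ u v : Fin 2 → ℤ, tt u = tt v → u = v := by
    intro u v huv
    unfold tt at huv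
    by_contra hne
    have hne' : (u 0 - v 0) ≠ 0 ∨ (u 1 - v 1) ≠ 0 := by
      by_contra hh
      push Not at hh
      apply hne
      ext i
      fin_cases i
      · simp; linarith [hh.1]
      · simp; linarith [hh.2]
    apply form_ne _ _ hne'
    push_cast
    linarith
  rcases abs_eq_abs.mp h with h | h
  · left; exact (key _ _ h).symm
  · right
    have : tt (-x') = tt x := by
      rw [h]; simp [tt]; ring
    have := key _ _ this
    rw [← this]; simp

lemma tt_pos {x : Fin 2 → ℤ} (h : x ≠ 0) : 0 < |tt x| := by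
  rw [abs_pos]
  intro h0
  apply h
  by_contra
  have hne' : x 0 ≠ 0 ∨ x 1 ≠ 0 := by
    by_contra hh
    push Not at hh
    apply h
    ext i
    fin_cases i
    · simpa using hh.1
    · simpa using hh.2
  apply form_ne _ _ hne'
  unfold tt at h0
  linarith

/-- Best approximations of `T0` have `y = 0`. -/
lemma best_y_zero {z : IntVec} (h : IsBest T0 z) : z.2 = 0 := by
  by_contra hy
  obtain ⟨hx0, hbest⟩ := h
  set N := nn z.1 with hNdef
  have hnorm : ‖z.1‖ = (N : ℝ) := norm_eq_nn z.1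
  have hN : 0 < N := by
    have : 0 < ‖z.1‖ := norm_pos_iff.mpr hx0
    rw [hnorm] at this
    exact_mod_cast this
  have hl := resid_large z.1 z.2 N hN hnorm.le hy
  obtain ⟨x, hx, hxN, hxt⟩ := exists_small N hN
  have hN' : (1 : ℝ) ≤ N := by exact_mod_cast hN
  have hs : ‖resid T0 x 0‖ ≤ ‖resid T0 z.1 z.2‖ := by
    rw [resid_zero_norm]
    have : 1 / (4 * ((N : ℝ) + 1)) ≤ 1 / (4 * (N : ℝ)) := by
      apply one_div_le_one_div_of_le (by positivity)
      linarith
    linarith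
  rcases hbest (x, 0) (by rw [hnorm]; exact hxN) hs with h | h | h
  · exact hx (congrArg Prod.fst h)
  · exact hy (congrArg Prod.snd h).symm
  · have := congrArg Prod.snd h
    simp at this
    exact hy this

/-- For each `N ≥ 1` the minimiser of `|tt|` is a best approximation. -/
lemma exists_best (N : ℕ) (hN : 0 < N) :
    ∃ x : Fin 2 → ℤ, IsBest T0 (x, 0) ∧ ‖x‖ ≤ N ∧ |tt x| ≤ 1 / (4 * ((N : ℝ) + 1)) := by
  classical
  -- finite set
  let S : Set (Fin 2 → ℤ) := {x | x ≠ 0 ∧ ‖x‖ ≤ N}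
  have hfin : S.Finite := by
    apply ((isCompact_closedBall (0 : Fin 2 → ℤ) (N : ℝ)).finite_of_discrete).subset
    intro x hx
    rw [mem_closedBall_zero_iff]
    exact hx.2
  obtain ⟨x₁, hx₁, hx₁N, hx₁t⟩ := exists_small N hN
  have hne : S.Nonempty := ⟨x₁, hx₁, hx₁N⟩
  obtain ⟨x, hxS, hxmin⟩ := Set.exists_min_image S (fun x => |tt x|) hfin hne
  have hxt : |tt x| ≤ 1 / (4 * ((N : ℝ) + 1)) := (hxmin x₁ ⟨hx₁, hx₁N⟩).trans hx₁t
  refine ⟨x, ⟨hxS.1, ?_⟩, hxS.2, hxt⟩
  intro z' hz1 hz2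
  simp only at hz1 hz2
  rw [resid_zero_norm] at hz2
  by_cases hy : z'.2 = 0
  · rw [hy, resid_zero_norm] at hz2
    by_cases hx0 : z'.1 = 0
    · left
      exact Prod.ext hx0 hy
    · right
      have hmem : z'.1 ∈ S := ⟨hx0, hz1.trans hxS.2⟩
      have := hxmin _ hmem
      have heq : |tt x| = |tt z'.1| := le_antisymm this hz2
      rcases tt_inj heq with h | h
      · left; exact Prod.ext h hy
      · right; exact Prod.ext (by simpa using h) (by simpa using hy)
  · exfalso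
    have hl := resid_large z'.1 z'.2 N hN (hz1.trans hxS.2) hy
    have hN' : (1 : ℝ) ≤ N := by exact_mod_cast hN
    have : 1 / (4 * ((N : ℝ) + 1)) ≤ 1 / (4 * (N : ℝ)) := by
      apply one_div_le_one_div_of_le (by positivity)
      linarith
    linarith

/-- the shifted matrix -/
noncomputable abbrev TR (R : Matrix (Fin 2) (Fin 2) ℤ) : Matrix (Fin 2) (Fin 2) ℝ :=
  T0 + R.map (Int.cast : ℤ → ℝ)

lemma isBest_shift (R : Matrix (Fin 2) (Fin 2) ℤ) (x y : Fin 2 → ℤ) :
    IsBest (TR R) (x, y) ↔ IsBest T0 (x, y - R.mulVec x) := by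
  constructor
  · rintro ⟨h0, h⟩
    refine ⟨h0, ?_⟩
    intro z' h1 h2
    have h2' : ‖resid (TR R) z'.1 (z'.2 + R.mulVec z'.1)‖ ≤ ‖resid (TR R) x y‖ := by
      rw [resid_shift, resid_shift, add_sub_cancel_right]
      exact h2
    rcases h (z'.1, z'.2 + R.mulVec z'.1) h1 h2' with h3 | h3 | h3
    · left
      have e1 : z'.1 = 0 := congrArg Prod.fst h3
      have e2 : z'.2 + R.mulVec z'.1 = 0 := congrArg Prod.snd h3
      refine Prod.ext e1 ?_
      rw [e1, Matrix.mulVec_zero, add_zero] at e2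
      exact e2
    · right; left
      have e1 : z'.1 = x := congrArg Prod.fst h3
      have e2 : z'.2 + R.mulVec z'.1 = y := congrArg Prod.snd h3
      refine Prod.ext e1 ?_
      change z'.2 = y - R.mulVec x
      rw [← e2, ← e1, add_sub_cancel_right]
    · right; right
      have e1 : z'.1 = -x := congrArg Prod.fst h3
      have e2 : z'.2 + R.mulVec z'.1 = -y := congrArg Prod.snd h3
      refine Prod.ext e1 ?_
      change z'.2 = -(y - R.mulVec x)
      rw [e1, Matrix.mulVec_neg, ← sub_eq_add_neg, sub_eq_iff_eq_add] at e2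
      rw [e2, neg_sub, sub_eq_neg_add]
  · rintro ⟨h0, h⟩
    refine ⟨h0, ?_⟩
    intro z' h1 h2
    have h2' : ‖resid T0 z'.1 (z'.2 - R.mulVec z'.1)‖ ≤ ‖resid T0 x (y - R.mulVec x)‖ := by
      rw [← resid_shift, ← resid_shift]
      exact h2
    rcases h (z'.1, z'.2 - R.mulVec z'.1) h1 h2' with h3 | h3 | h3
    · left
      have e1 : z'.1 = 0 := congrArg Prod.fst h3
      have e2 : z'.2 - R.mulVec z'.1 = 0 := congrArg Prod.snd h3
      refine Prod.ext e1 ?_
      rw [e1, Matrix.mulVec_zero, sub_zero] at e2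
      exact e2
    · right; left
      have e1 : z'.1 = x := congrArg Prod.fst h3
      have e2 : z'.2 - R.mulVec z'.1 = y - R.mulVec x := congrArg Prod.snd h3
      refine Prod.ext e1 ?_
      rw [e1, sub_left_inj] at e2
      exact e2
    · right; right
      have e1 : z'.1 = -x := congrArg Prod.fst h3
      have e2 : z'.2 - R.mulVec z'.1 = -(y - R.mulVec x) := congrArg Prod.snd h3
      refine Prod.ext e1 ?_
      change z'.2 = -y
      rw [e1, Matrix.mulVec_neg, sub_neg_eq_add, neg_sub, ← eq_sub_iff_add_eq] at e2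
      rw [e2, sub_right_comm, sub_self, zero_sub]

lemma best_snd {R : Matrix (Fin 2) (Fin 2) ℤ} {z : IntVec} (h : IsBest (TR R) z) :
    z.2 = R.mulVec z.1 := by
  have h1 : IsBest T0 (z.1, z.2 - R.mulVec z.1) := (isBest_shift R z.1 z.2).mp h
  have := best_y_zero h1
  simp only at this
  exact sub_eq_zero.mp this

lemma condG_TR (R : Matrix (Fin 2) (Fin 2) ℤ) : CondG (TR R) := by
  intro x hx y hxy
  have h0 : resid (TR R) x y = 0 := by
    unfold resid
    rw [hxy]
    simp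
  rw [resid_shift] at h0
  by_cases hy : y - R.mulVec x = 0
  · rw [hy] at h0
    have h1 : ‖resid T0 x 0‖ = 0 := by rw [h0]; simp
    rw [resid_zero_norm] at h1
    exact (tt_pos hx).ne' h1
  · have hN : 0 < nn x := by
      have : 0 < ‖x‖ := norm_pos_iff.mpr hx
      rw [norm_eq_nn] at this
      exact_mod_cast this
    have h1 := resid_large x _ (nn x) hN (norm_eq_nn x).le hy
    rw [h0, norm_zero] at h1
    have : (0 : ℝ) < 1 / (4 * (nn x : ℝ)) := by positivity
    linarith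

/-- uniqueness of the best approximation with given norm -/
lemma best_unique {Θ : Matrix (Fin 2) (Fin 2) ℝ} {z z' : IntVec} (h : IsBest Θ z)
    (h' : IsBest Θ z') (hn : ‖z.1‖ = ‖z'.1‖) : z' = z ∨ z' = -z := by
  rcases le_total ‖resid Θ z.1 z.2‖ ‖resid Θ z'.1 z'.2‖ with hl | hl
  · rcases h'.2 z hn.le hl with h1 | h1 | h1
    · exact absurd (congrArg Prod.fst h1) h.1
    · exact Or.inl h1.symm
    · right; rw [h1]; simp
  · rcases h.2 z' hn.ge hl with h1 | h1 | h1
    · exact absurd (congrArg Prod.fst h1) h'.1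
    · exact Or.inl h1
    · exact Or.inr h1

/-- residuals strictly decrease -/
lemma resid_decr {Θ : Matrix (Fin 2) (Fin 2) ℝ} {z z' : IntVec} (h : IsBest Θ z)
    (h' : IsBest Θ z') (hn : ‖z.1‖ < ‖z'.1‖) : ‖resid Θ z'.1 z'.2‖ < ‖resid Θ z.1 z.2‖ := by
  by_contra hcon
  push Not at hcon
  rcases h'.2 z hn.le hcon with h1 | h1 | h1
  · exact absurd (congrArg Prod.fst h1) h.1
  · rw [h1] at hn; exact lt_irrefl _ hn
  · rw [h1] at hn; simp at hn

/-- arbitrarily large best approximations of `T0` -/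
lemma exists_best_large (K : ℕ) : ∃ x : Fin 2 → ℤ, IsBest T0 (x, 0) ∧ K < nn x := by
  classical
  let S : Set (Fin 2 → ℤ) := {x | x ≠ 0 ∧ ‖x‖ ≤ (K + 1 : ℕ)}
  have hfin : S.Finite := by
    apply ((isCompact_closedBall (0 : Fin 2 → ℤ) ((K + 1 : ℕ) : ℝ)).finite_of_discrete).subset
    intro x hx
    rw [mem_closedBall_zero_iff]
    exact hx.2
  obtain ⟨x₁, hx₁, hx₁N, -⟩ := exists_small (K + 1) (Nat.succ_pos K)
  obtain ⟨x₂, hx₂S, hmin⟩ := Set.exists_min_image S (fun x => |tt x|) hfin ⟨x₁, hx₁, hx₁N⟩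
  have hpos : 0 < |tt x₂| := tt_pos hx₂S.1
  obtain ⟨N, hN⟩ := exists_nat_gt (1 / (4 * |tt x₂|))
  have hNpos : 0 < N := by
    have : (0 : ℝ) < N := lt_trans (by positivity) hN
    exact_mod_cast this
  obtain ⟨x, hbest, -, hxt⟩ := exists_best N hNpos
  refine ⟨x, hbest, ?_⟩
  by_contra hcon
  push Not at hcon
  have hxS : x ∈ S := by
    refine ⟨hbest.1, ?_⟩
    rw [norm_eq_nn]
    exact_mod_cast hcon.trans (Nat.le_succ K)
  have h1 := hmin x hxS
  have h2 : |tt x₂| ≤ 1 / (4 * ((N : ℝ) + 1)) := h1.trans hxt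
  have h3 : 1 / (4 * |tt x₂|) < (N : ℝ) := hN
  rw [div_lt_iff₀ (by positivity)] at h3
  rw [le_div_iff₀ (by positivity)] at h2
  nlinarith

lemma exists_lists (R : Matrix (Fin 2) (Fin 2) ℤ) : ∃ z : ℕ → IntVec, Lists (TR R) z := by
  classical
  let P : ℕ → Prop := fun m => ∃ w : IntVec, IsBest (TR R) w ∧ nn w.1 = m
  have hinf : {m | P m}.Infinite := by
    rw [Set.infinite_iff_exists_gt]
    intro K
    obtain ⟨x, hx, hK⟩ := exists_best_large K
    refine ⟨nn x, ⟨(x, R.mulVec x), ?_, rfl⟩, hK⟩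
    rw [isBest_shift, sub_self]
    exact hx
  have hmem : ∀ n, P (Nat.nth P n) := fun n => Nat.nth_mem_of_infinite hinf n
  choose z hz hzn using hmem
  refine ⟨z, hz, ?_, ?_⟩
  · intro a b hab
    simp only
    rw [norm_eq_nn, norm_eq_nn, hzn, hzn]
    exact_mod_cast Nat.nth_strictMono hinf hab
  · intro w hw
    have hPw : P (nn w.1) := ⟨w, hw, rfl⟩
    have : nn w.1 ∈ Set.range (Nat.nth P) := by
      rw [Nat.range_nth_of_infinite hinf]
      exact hPw
    obtain ⟨n, hn⟩ := this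
    refine ⟨n, ?_⟩
    have h1 : ‖(z n).1‖ = ‖w.1‖ := by
      rw [norm_eq_nn, norm_eq_nn, hzn, hn]
    exact best_unique (hz n) hw h1

/-- real version of the linear map `x ↦ (x, R x)` -/
noncomputable def graphMap (R : Matrix (Fin 2) (Fin 2) ℤ) :
    (Fin 2 → ℝ) →ₗ[ℝ] (Fin 2 → ℝ) × (Fin 2 → ℝ) :=
  LinearMap.prod LinearMap.id (Matrix.mulVecLin (R.map (Int.cast : ℤ → ℝ)))

lemma emb_eq (R : Matrix (Fin 2) (Fin 2) ℤ) (x : Fin 2 → ℤ) :
    ((fun i => (x i : ℝ), fun i => ((R.mulVec x i : ℤ) : ℝ)) : (Fin 2 → ℝ) × (Fin 2 → ℝ))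
      = graphMap R (fun i => (x i : ℝ)) := by
  refine Prod.ext rfl ?_
  exact (shift_cast R x).symm

lemma tailDim_eq {R : Matrix (Fin 2) (Fin 2) ℤ} {z : ℕ → IntVec} (hz : Lists (TR R) z) (ν₀ : ℕ) :
    tailDim z ν₀ = 2 := by
  unfold tailDim
  set T : Set ((Fin 2 → ℝ) × (Fin 2 → ℝ)) := {v | ∃ ν, ν₀ ≤ ν ∧
    v = (fun i => ((z ν).1 i : ℝ), fun i => ((z ν).2 i : ℝ))} with hT
  have hform : ∀ ν, ((fun i => ((z ν).1 i : ℝ), fun i => ((z ν).2 i : ℝ)) :
      (Fin 2 → ℝ) × (Fin 2 → ℝ)) = graphMap R (fun i => ((z ν).1 i : ℝ)) := by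
    intro ν
    rw [← emb_eq, best_snd (hz.best ν)]
  apply le_antisymm
  · have hsub : Submodule.span ℝ T ≤ LinearMap.range (graphMap R) := by
      rw [Submodule.span_le]
      rintro v ⟨ν, -, rfl⟩
      rw [hform]
      exact LinearMap.mem_range_self _ _
    calc Module.finrank ℝ (Submodule.span ℝ T)
        ≤ Module.finrank ℝ (LinearMap.range (graphMap R)) := Submodule.finrank_mono hsub
      _ ≤ Module.finrank ℝ (Fin 2 → ℝ) := LinearMap.finrank_range_le _
      _ = 2 := by simp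
  · -- two independent vectors
    let a : Fin 2 → ℝ := fun i => ((z ν₀).1 i : ℝ)
    let b : Fin 2 → ℝ := fun i => ((z (ν₀ + 1)).1 i : ℝ)
    have hlt : ‖(z ν₀).1‖ < ‖(z (ν₀ + 1)).1‖ := hz.mono (Nat.lt_succ_self ν₀)
    have hdec := resid_decr (hz.best ν₀) (hz.best (ν₀ + 1)) hlt
    rw [resid_shift, resid_shift, best_snd (hz.best ν₀), best_snd (hz.best (ν₀ + 1)), sub_self,
      sub_self, resid_zero_norm, resid_zero_norm] at hdec
    have hli : LinearIndependent ℝ ![a, b] := by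
      rw [LinearIndependent.pair_iff]
      intro s t hst
      have h0 : s * ((z ν₀).1 0 : ℝ) + t * ((z (ν₀ + 1)).1 0 : ℝ) = 0 := by
        have := congrFun hst 0
        simpa [a, b] using this
      have h1 : s * ((z ν₀).1 1 : ℝ) + t * ((z (ν₀ + 1)).1 1 : ℝ) = 0 := by
        have := congrFun hst 1
        simpa [a, b] using this
      have htt : s * tt (z ν₀).1 + t * tt (z (ν₀ + 1)).1 = 0 := by
        unfold tt
        linear_combination (psi / 4) * h0 + (1 / 4) * h1
      have habs : |s| * |tt (z ν₀).1| = |t| * |tt (z (ν₀ + 1)).1| := by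
        rw [← abs_mul, ← abs_mul]
        have : s * tt (z ν₀).1 = -(t * tt (z (ν₀ + 1)).1) := by linarith
        rw [this, abs_neg]
      have hnn : |s| * ‖(z ν₀).1‖ = |t| * ‖(z (ν₀ + 1)).1‖ := by
        rw [norm_two_int, norm_two_int, mul_max_of_nonneg _ _ (abs_nonneg _),
          mul_max_of_nonneg _ _ (abs_nonneg _), ← abs_mul, ← abs_mul, ← abs_mul, ← abs_mul]
        have e0 : s * ((z ν₀).1 0 : ℝ) = -(t * ((z (ν₀ + 1)).1 0 : ℝ)) := by linarith
        have e1 : s * ((z ν₀).1 1 : ℝ) = -(t * ((z (ν₀ + 1)).1 1 : ℝ)) := by linarith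
        rw [e0, e1, abs_neg, abs_neg]
      have hp1 : 0 < |tt (z ν₀).1| := tt_pos (hz.best ν₀).1
      have hq1 : 0 < ‖(z ν₀).1‖ := norm_pos_iff.mpr (hz.best ν₀).1
      have hs : 0 ≤ |s| := abs_nonneg _
      have ht : 0 ≤ |t| := abs_nonneg _
      by_cases ht0 : |t| = 0
      · have hs0 : |s| = 0 := by
          rw [ht0, zero_mul] at habs
          rcases mul_eq_zero.mp habs with h | h
          · exact h
          · exact absurd h hp1.ne'
        exact ⟨abs_eq_zero.mp hs0, abs_eq_zero.mp ht0⟩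
      · exfalso
        have htpos : 0 < |t| := lt_of_le_of_ne ht (Ne.symm ht0)
        have hA : |s| < |t| := by
          by_contra hc
          push Not at hc
          have h2 : |t| * |tt (z (ν₀ + 1)).1| < |t| * |tt (z ν₀).1| :=
            mul_lt_mul_of_pos_left hdec htpos
          have h3 : |t| * |tt (z ν₀).1| ≤ |s| * |tt (z ν₀).1| :=
            mul_le_mul_of_nonneg_right hc hp1.le
          linarith
        have hB : |t| < |s| := by
          by_contra hc
          push Not at hc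
          have h2 : |t| * ‖(z ν₀).1‖ < |t| * ‖(z (ν₀ + 1)).1‖ :=
            mul_lt_mul_of_pos_left hlt htpos
          have h3 : |s| * ‖(z ν₀).1‖ ≤ |t| * ‖(z ν₀).1‖ :=
            mul_le_mul_of_nonneg_right hc hq1.le
          linarith
        exact lt_asymm hA hB
    have hker : LinearMap.ker (graphMap R) = ⊥ := by
      rw [LinearMap.ker_eq_bot']
      intro v hv
      have := congrArg Prod.fst hv
      simpa [graphMap] using this
    have hli2 : LinearIndependent ℝ (graphMap R ∘ ![a, b]) := hli.map' _ hker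
    have hsub : Submodule.span ℝ (Set.range (graphMap R ∘ ![a, b])) ≤ Submodule.span ℝ T := by
      apply Submodule.span_mono
      rintro v ⟨i, rfl⟩
      fin_cases i
      · exact ⟨ν₀, le_rfl, (hform ν₀).symm⟩
      · exact ⟨ν₀ + 1, Nat.le_succ _, (hform (ν₀ + 1)).symm⟩
    calc 2 = Module.finrank ℝ (Submodule.span ℝ (Set.range (graphMap R ∘ ![a, b]))) := by
          rw [finrank_span_eq_card hli2]
          simp
      _ ≤ Module.finrank ℝ (Submodule.span ℝ T) := Submodule.finrank_mono hsub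

lemma condG_TR_transpose (R : Matrix (Fin 2) (Fin 2) ℤ) : CondG (TR R).transpose := by
  intro b hb y hy
  have h0 := congrFun hy 0
  have h1 := congrFun hy 1
  simp only [Matrix.mulVec, dotProduct, Fin.sum_univ_two, Matrix.transpose_apply,
    Matrix.add_apply, Matrix.map_apply, T0, Matrix.of_apply, Matrix.cons_val', Matrix.cons_val_zero,
    Matrix.cons_val_one] at h0 h1
  -- `(b₀ + ψ b₁)/4` is an integer `n`
  set n : ℤ := y 1 - R 0 1 * b 0 - R 1 1 * b 1 with hn
  have h2 : ((b 0 : ℝ) + psi * b 1) / 4 = n := by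
    rw [hn]
    push_cast
    linear_combination h1
  have h3 : psi * (n : ℝ) = ((y 0 - R 0 0 * b 0 - R 1 0 * b 1 : ℤ) : ℝ) := by
    rw [← h2]
    push_cast
    linear_combination h0
  -- hence `n = 0` and `b = 0`
  have hn0 : n = 0 := by
    by_contra hne
    apply form_ne n (-(y 0 - R 0 0 * b 0 - R 1 0 * b 1)) (Or.inl hne)
    rw [h3]
    push_cast
    ring
  apply hb
  by_contra hb'
  have hne' : b 1 ≠ 0 ∨ b 0 ≠ 0 := by
    by_contra hh
    push Not at hh
    apply hb'
    ext i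
    fin_cases i
    · simpa using hh.2
    · simpa using hh.1
  apply form_ne _ _ hne'
  rw [hn0] at h2
  push_cast at h2
  linarith

/-- There is a real `2 × 2` matrix `Θ₀` with `det Θ₀ = 0` such that for every integer matrix `R`
(in particular for `R = 0`) the matrix `Θ = Θ₀ + R` satisfies (G), its transpose satisfies (G)
too, its best approximation vectors (sup norms) can be listed, and for every such listing every
tail spans a space of dimension exactly `2`. -/
theorem result :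
    ∃ Θ₀ : Matrix (Fin 2) (Fin 2) ℝ, Θ₀.det = 0 ∧
      ∀ R : Matrix (Fin 2) (Fin 2) ℤ,
        CondG (Θ₀ + R.map (Int.cast : ℤ → ℝ)) ∧
        CondG (Θ₀ + R.map (Int.cast : ℤ → ℝ)).transpose ∧
        (∃ z : ℕ → IntVec, Lists (Θ₀ + R.map (Int.cast : ℤ → ℝ)) z) ∧
        ∀ z : ℕ → IntVec, Lists (Θ₀ + R.map (Int.cast : ℤ → ℝ)) z → ∀ ν₀ : ℕ, tailDim z ν₀ = 2 :=
  ⟨T0, T0_det, fun R => ⟨condG_TR R, condG_TR_transpose R, exists_lists R,
    fun _ hz ν₀ => tailDim_eq hz ν₀⟩⟩

end Pool.Agent.Results.MP_a0fa86_nt.SpanTwo
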